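import Pool.Agent.Y817.WK.Stm

/-!
# WK-DERIVE
-/

set_option autoImplicit false
set_option linter.unusedSectionVars false

namespace Run7.h417.WK

open Pool.Agent.Y817.WK

section
variable {V ι : Type} [Fintype V] [DecidableEq V] [Fintype ι] {n : V} {Q : ι → Quad V}
  {A : Type} [NonUnitalRing A] {g : Gen V ι → A}

/-- the word `p x_L` -/
def P (g : Gen V ι → A) (L : List V) : A := L.foldl (fun u v => u * g (.x v)) (g .p)

theorem P_nil : P g [] = g .p := rfl

theorem P_append (L : List V) (j : V) : P g (L ++ [j]) = P g L * g (.x j) := by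
  simp [P, List.foldl_append]

theorem P_e (h : Rel n Q g) (L : List V) (k : V) :
    P g L * g (.e k) = -((L.count k : ℤ) • (P g L * g .z)) := by
  induction L using List.reverseRecOn with
  | nil => simp [P_nil, h.pe]
  | append_singleton L j ih =>
    rw [P_append, mul_assoc, h.xe, mul_sub, ← mul_assoc, ih, List.count_append]
    have e1 : P g L * g .z * g (.x j) = P g L * g (.x j) * g .z := by
      rw [mul_assoc, h.zx, ← mul_assoc]
    rw [neg_mul, smul_mul_assoc, e1]
    by_cases hjk : j = k
    · subst hjk
      simp only [if_true, List.count_singleton_self]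
      push_cast
      rw [add_smul, one_smul, neg_add, ← mul_assoc]
      abel
    · rw [if_neg hjk, mul_zero, sub_zero, List.count_singleton]
      simp [hjk]

theorem key (h : Rel n Q g) (L : List V)
    (hQ : ∀ s, (Q s).val (fun v => (L.count v : ℤ)) = 0) : P g L * g .z * g .q0 = 0 := by
  have h0 : P g L * (g .z * g .q0 + ∑ k, g (.e k) * g (.q1 k) +
      ∑ s, (Q s).d • (g .z * g (.q2 s))) = 0 := by rw [h.r0, mul_zero]
  have h1 : ∀ k, P g L * (g .z * g (.q1 k) + ∑ s, ((Q s).B k • (g .z * g (.q2 s)) -
      ∑ i, (Q s).A i k • (g (.e i) * g (.q2 s)))) = 0 := fun k => by rw [h.r1, mul_zero]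
  rw [mul_add, mul_add, Finset.mul_sum, Finset.mul_sum] at h0
  have e0 : ∀ k, P g L * (g (.e k) * g (.q1 k)) = -((L.count k : ℤ) • (P g L * g .z * g (.q1 k))) := by
    intro k
    rw [← mul_assoc, P_e h, neg_mul, smul_mul_assoc]
  have e1 : ∀ s, P g L * ((Q s).d • (g .z * g (.q2 s))) = (Q s).d • (P g L * g .z * g (.q2 s)) := by
    intro s
    rw [mul_smul_comm, ← mul_assoc]
  have e2 : ∀ k, P g L * g .z * g (.q1 k) =
      -∑ s, ((Q s).B k + ∑ i, (Q s).A i k * (L.count i : ℤ)) • (P g L * g .z * g (.q2 s)) := by
    intro k
    have := h1 k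
    rw [mul_add, Finset.mul_sum, ← mul_assoc] at this
    rw [eq_neg_iff_add_eq_zero, ← this]
    congr 1
    refine Finset.sum_congr rfl fun s _ => ?_
    rw [mul_sub, mul_smul_comm, Finset.mul_sum, add_smul, Finset.sum_smul, sub_eq_add_neg,
      ← Finset.sum_neg_distrib, ← mul_assoc]
    congr 1
    refine Finset.sum_congr rfl fun i _ => ?_
    rw [mul_smul_comm, ← mul_assoc, P_e h, neg_mul, smul_mul_assoc, smul_neg, neg_neg, smul_smul]
  simp only [e0, e1] at h0
  rw [← mul_assoc] at h0
  have e3 : ∀ k, -((L.count k : ℤ) • (P g L * g .z * g (.q1 k))) =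
      ∑ s, ((L.count k : ℤ) * ((Q s).B k + ∑ i, (Q s).A i k * (L.count i : ℤ))) •
        (P g L * g .z * g (.q2 s)) := by
    intro k
    rw [e2, smul_neg, neg_neg, Finset.smul_sum]
    refine Finset.sum_congr rfl fun s _ => ?_
    rw [smul_smul]
  simp only [e3] at h0
  rw [Finset.sum_comm, add_assoc, ← Finset.sum_add_distrib] at h0
  have e4 : ∀ s, (∑ k, ((L.count k : ℤ) * ((Q s).B k + ∑ i, (Q s).A i k * (L.count i : ℤ))) •
      (P g L * g .z * g (.q2 s))) + (Q s).d • (P g L * g .z * g (.q2 s)) = 0 := by
    intro s
    rw [← Finset.sum_smul, ← add_smul]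
    have : (∑ k, (L.count k : ℤ) * ((Q s).B k + ∑ i, (Q s).A i k * (L.count i : ℤ))) + (Q s).d =
        (Q s).val (fun v => (L.count v : ℤ)) := by
      unfold Quad.val
      congr 1
      simp only [mul_add, Finset.sum_add_distrib]
      rw [add_comm]
      congr 1
      · rw [Finset.sum_comm]
        refine Finset.sum_congr rfl fun k _ => ?_
        rw [Finset.mul_sum]
        refine Finset.sum_congr rfl fun i _ => ?_
        ring
      · refine Finset.sum_congr rfl fun k _ => ?_
        ring
    rw [this, hQ s, zero_smul]
  rw [Finset.sum_congr rfl (fun s _ => e4 s), Finset.sum_const_zero, add_zero] at h0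
  exact h0

theorem drop (h : Rel n Q g) (L L' : List V) (hL' : ∀ v ∈ L', v ≠ n) :
    P g (L ++ L') * g .z * g .q0 = P g L * g .z * g .q0 := by
  induction L' using List.reverseRecOn with
  | nil => simp
  | append_singleton L' j ih =>
    rw [← List.append_assoc, P_append, mul_assoc, mul_assoc, ← mul_assoc (g (.x j)),
      ← h.rh j (hL' j (by simp)), ← mul_assoc]
    exact ih fun v hv => hL' v (by simp [hv])

end

theorem derive : StmDerive := by
  classical
  intro V ι _ _ _ n Q A _ g h c hc
  obtain ⟨y, hy, hQ⟩ := hc
  let L' : List V := (Finset.univ : Finset V).toList.flatMap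
    (fun v => if v = n then [] else List.replicate (y v) v)
  have hL' : ∀ v ∈ L', v ≠ n := by
    intro v hv
    simp only [L', List.mem_flatMap] at hv
    obtain ⟨w, -, hw⟩ := hv
    split_ifs at hw with hwn
    · simp at hw
    · rw [List.mem_replicate] at hw
      rw [hw.2]
      exact hwn
  have hcount : ∀ k, (List.replicate c n ++ L').count k = y k := by
    intro k
    rw [List.count_append, List.count_flatMap]
    have h2 : (Finset.univ : Finset V).toList.map
        (List.count k ∘ fun v => if v = n then [] else List.replicate (y v) v) =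
        (Finset.univ : Finset V).toList.map (fun v => if v = k ∧ k ≠ n then y k else 0) := by
      refine List.map_congr_left fun v _ => ?_
      simp only [Function.comp]
      by_cases hvn : v = n
      · rw [if_pos hvn]
        subst hvn
        by_cases hvk : v = k
        · subst hvk
          simp
        · simp [hvk]
      · rw [if_neg hvn, List.count_replicate]
        by_cases hvk : v = k
        · subst hvk
          simp [hvn]
        · simp [hvk]
    rw [h2, Finset.sum_map_toList]
    by_cases hkn : k = n
    · subst hkn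
      simp [hy]
    · have : n ≠ k := fun e => hkn e.symm
      simp [hkn, List.count_replicate, this]
  have hk := key h (List.replicate c n ++ L') (fun s => by simpa only [hcount] using hQ s)
  rw [drop h _ _ hL'] at hk
  have hW : W n g c = P g (List.replicate c n) * g .z * g .q0 := by
    unfold W P
    rw [← List.map_replicate, List.foldl_map]
  rw [hW, hk]

end Run7.h417.WK
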