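import Pool.Agent.Y817.WK.Stm

/-!
# WK-PDE
-/

set_option autoImplicit false
set_option linter.unusedSectionVars false

namespace Run7.h417.WK

open Pool.Agent.Y817.WK

section
variable {V K : Type} [Field K] [Fintype V] [DecidableEq V]

theorem coeff_euler (i : V) (f : MvPolynomial V K) (y : V →₀ ℕ) :
    (euler i f).coeff y = (y i : K) * f.coeff y := by
  classical
  induction f using MvPolynomial.induction_on' with
  | monomial u a =>
    unfold euler
    rw [MvPolynomial.pderiv_monomial, MvPolynomial.X, MvPolynomial.monomial_mul, one_mul]
    by_cases hu : u i = 0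
    · simp only [hu, Nat.cast_zero, mul_zero, MvPolynomial.monomial_zero, MvPolynomial.coeff_zero]
      rw [MvPolynomial.coeff_monomial]
      split_ifs with h
      · subst h
        simp [hu]
      · simp
    · have h1 : Finsupp.single i 1 + (u - Finsupp.single i 1) = u := by
        ext j
        by_cases hj : j = i
        · subst hj
          simp
          omega
        · simp [Ne.symm hj]
      rw [h1, MvPolynomial.coeff_monomial, MvPolynomial.coeff_monomial]
      split_ifs with h
      · subst h
        ring
      · simp
  | add p q hp hq =>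
    have : euler i (p + q) = euler i p + euler i q := by simp [euler, mul_add]
    rw [this, MvPolynomial.coeff_add, hp, hq, MvPolynomial.coeff_add]
    ring

end

theorem pde : StmPde := by
  classical
  intro K _ _ V ι _ _ _ n Q c f g h h1 h2 h3
  -- the support
  have hsupp : ∀ y : V →₀ ℕ, f.coeff y ≠ 0 → ∀ s, (Q s).val (fun v => (y v : ℤ)) = 0 := by
    intro y hy s
    have h4 := congrArg (MvPolynomial.coeff y) (h3 s)
    simp only [h2] at h4
    rw [MvPolynomial.coeff_add, MvPolynomial.coeff_sum] at h4
    simp only [MvPolynomial.coeff_add, MvPolynomial.coeff_sum, MvPolynomial.coeff_zero] at h4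
    have hz : ∀ (a : ℤ) (p : MvPolynomial V K), (a • p).coeff y = (a : K) * p.coeff y := by
      intro a p
      rw [← Int.cast_smul_eq_zsmul K, MvPolynomial.coeff_smul, smul_eq_mul]
    simp only [hz, coeff_euler] at h4
    have h5 : (((Q s).val (fun v => (y v : ℤ)) : ℤ) : K) * f.coeff y = 0 := by
      rw [← h4]
      unfold Quad.val
      push_cast
      rw [add_mul, add_mul, Finset.sum_mul, Finset.sum_mul, add_comm, Finset.sum_add_distrib]
      congr 1
      rw [add_comm]
      congr 1
      · refine Finset.sum_congr rfl fun k _ => ?_
        ring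
      · simp only [Finset.sum_mul]
        rw [Finset.sum_comm]
        refine Finset.sum_congr rfl fun k _ => ?_
        refine Finset.sum_congr rfl fun i _ => ?_
        ring
    have h6 := (mul_eq_zero.1 h5).resolve_right hy
    exact_mod_cast h6
  -- the substitution
  let φ : MvPolynomial V K →ₐ[K] Polynomial K :=
    MvPolynomial.aeval (fun i => if i = n then Polynomial.X else 1)
  have h4 := congrArg φ h1
  have h5 : φ (∑ i, (if i = n then 0 else (1 - MvPolynomial.X i) * h i)) = 0 := by
    rw [map_sum]
    refine Finset.sum_eq_zero fun i _ => ?_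
    split_ifs with hi
    · simp
    · rw [map_mul]
      have : φ (1 - MvPolynomial.X i) = 0 := by simp [φ, hi]
      rw [this, zero_mul]
  rw [map_add, h5, add_zero, map_pow] at h4
  have h6 : φ (MvPolynomial.X n) = Polynomial.X := by simp [φ]
  rw [h6] at h4
  by_contra hno
  have h7 : ∀ y : V →₀ ℕ, y n = c → f.coeff y = 0 := by
    intro y hy
    by_contra hne
    exact hno ⟨fun v => y v, hy, hsupp y hne⟩
  have h8 : (φ f).coeff c = 0 := by
    have h9 : φ f = ∑ y ∈ f.support, Polynomial.C (f.coeff y) * Polynomial.X ^ (y n) := by
      simp only [φ]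
      rw [MvPolynomial.aeval_def, MvPolynomial.eval₂_eq']
      refine Finset.sum_congr rfl fun y _ => ?_
      congr 1
      rw [Finset.prod_eq_single n]
      · simp
      · intro b _ hb
        simp [hb]
      · simp
    rw [h9, Polynomial.finsetSum_coeff]
    refine Finset.sum_eq_zero fun y _ => ?_
    rw [Polynomial.coeff_C_mul, Polynomial.coeff_X_pow]
    split_ifs with hc
    · rw [h7 y hc.symm, zero_mul]
    · rw [mul_zero]
  rw [h4, Polynomial.coeff_X_pow, if_pos rfl] at h8
  exact one_ne_zero h8

end Run7.h417.WK
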