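import Pool.Agent.Y817.WK.Stm

/-!
# WK-TRI
-/

set_option autoImplicit false
set_option linter.unusedSectionVars false
set_option linter.unusedVariables false

namespace Run7.h417.WK

open Pool.Agent.Y817.WK

section
variable (K S M : Type) [Field K] [CommRing S] [Algebra K S] [AddCommGroup M] [Module K M]

/-- the block `B` -/
abbrev TB := S × Derivation K S S × S

/-- the algebra -/
def T := TB K S × (S × S) × ((S →ₗ[K] M) × (S →ₗ[K] M)) × M

instance : AddCommGroup (T K S M) :=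
  inferInstanceAs (AddCommGroup (TB K S × (S × S) × ((S →ₗ[K] M) × (S →ₗ[K] M)) × M))

instance : Module K (T K S M) :=
  inferInstanceAs (Module K (TB K S × (S × S) × ((S →ₗ[K] M) × (S →ₗ[K] M)) × M))

variable {K S M}

/-- the operator `δ + c` -/
def op (δ : Derivation K S S) (c : S) : S →ₗ[K] S := (δ : S →ₗ[K] S) + LinearMap.mulLeft K c

theorem op_apply (δ : Derivation K S S) (c f : S) : op δ c f = δ f + c * f := rfl

/-- `B * B` -/
def bb (x y : TB K S) : TB K S :=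
  (x.1 * y.1, y.1 • x.2.1 + x.1 • y.2.1, y.1 * x.2.2 + x.1 * y.2.2 + y.2.1 x.1)

/-- `U * B` -/
def ub (u : S × S) (y : TB K S) : S × S :=
  (u.1 * y.1, u.2 * y.1 + y.2.1 u.1 + y.2.2 * u.1)

/-- `B * Q`; the first component belongs to `Qm`, the second to `Qf` -/
def bq (x : TB K S) (q : (S →ₗ[K] M) × (S →ₗ[K] M)) : (S →ₗ[K] M) × (S →ₗ[K] M) :=
  (q.1 ∘ₗ LinearMap.mulLeft K x.1, q.2 ∘ₗ LinearMap.mulLeft K x.1 + q.1 ∘ₗ op x.2.1 x.2.2)

/-- `U * Q` -/
def uq (u : S × S) (q : (S →ₗ[K] M) × (S →ₗ[K] M)) : M := q.1 u.2 + q.2 u.1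

instance : Mul (T K S M) :=
  ⟨fun x y => (bb x.1 y.1, ub x.2.1 y.1, bq x.1 y.2.2.1, uq x.2.1 y.2.2.1)⟩

theorem T.ext {x y : T K S M} (h1 : x.1 = y.1) (h2 : x.2.1 = y.2.1) (h3 : x.2.2.1 = y.2.2.1)
    (h4 : x.2.2.2 = y.2.2.2) : x = y :=
  Prod.ext h1 (Prod.ext h2 (Prod.ext h3 h4))

theorem mul_1 (x y : T K S M) : (x * y).1 = bb x.1 y.1 := rfl
theorem mul_2 (x y : T K S M) : (x * y).2.1 = ub x.2.1 y.1 := rfl
theorem mul_3 (x y : T K S M) : (x * y).2.2.1 = bq x.1 y.2.2.1 := rfl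
theorem mul_4 (x y : T K S M) : (x * y).2.2.2 = uq x.2.1 y.2.2.1 := rfl

theorem add_1 (x y : T K S M) : (x + y).1 = x.1 + y.1 := rfl
theorem add_2 (x y : T K S M) : (x + y).2.1 = x.2.1 + y.2.1 := rfl
theorem add_3 (x y : T K S M) : (x + y).2.2.1 = x.2.2.1 + y.2.2.1 := rfl
theorem add_4 (x y : T K S M) : (x + y).2.2.2 = x.2.2.2 + y.2.2.2 := rfl
theorem sub_1 (x y : T K S M) : (x - y).1 = x.1 - y.1 := rfl
theorem sub_2 (x y : T K S M) : (x - y).2.1 = x.2.1 - y.2.1 := rfl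
theorem sub_3 (x y : T K S M) : (x - y).2.2.1 = x.2.2.1 - y.2.2.1 := rfl
theorem sub_4 (x y : T K S M) : (x - y).2.2.2 = x.2.2.2 - y.2.2.2 := rfl
theorem zero_1 : (0 : T K S M).1 = 0 := rfl
theorem zero_2 : (0 : T K S M).2.1 = 0 := rfl
theorem zero_3 : (0 : T K S M).2.2.1 = 0 := rfl
theorem zero_4 : (0 : T K S M).2.2.2 = 0 := rfl
theorem smul_1 (k : K) (x : T K S M) : (k • x).1 = k • x.1 := rfl
theorem smul_2 (k : K) (x : T K S M) : (k • x).2.1 = k • x.2.1 := rfl
theorem smul_3 (k : K) (x : T K S M) : (k • x).2.2.1 = k • x.2.2.1 := rfl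
theorem smul_4 (k : K) (x : T K S M) : (k • x).2.2.2 = k • x.2.2.2 := rfl

theorem TB.ext {x y : TB K S} (h1 : x.1 = y.1) (h2 : ∀ f, x.2.1 f = y.2.1 f) (h3 : x.2.2 = y.2.2) :
    x = y := Prod.ext h1 (Prod.ext (Derivation.ext h2) h3)

theorem bb_add (x y z : TB K S) : bb x (y + z) = bb x y + bb x z := by
  refine TB.ext ?_ (fun f => ?_) ?_
  · simp [bb, mul_add]
  · simp [bb, add_smul, smul_add, add_mul, mul_add]
    ring
  · simp [bb, mul_add, add_mul]
    ring

theorem add_bb (x y z : TB K S) : bb (x + y) z = bb x z + bb y z := by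
  refine TB.ext ?_ (fun f => ?_) ?_
  · simp [bb, add_mul]
  · simp [bb, add_smul, smul_add, add_mul, mul_add]
    ring
  · simp [bb, mul_add, add_mul]
    ring

theorem bb_assoc (x y z : TB K S) : bb (bb x y) z = bb x (bb y z) := by
  refine TB.ext ?_ (fun f => ?_) ?_
  · simp [bb, mul_assoc]
  · simp [bb]
    ring
  · simp [bb]
    ring

theorem bb_smul (k : K) (x y : TB K S) : bb x (k • y) = k • bb x y := by
  refine TB.ext ?_ (fun f => ?_) ?_
  · simp [bb]
  · simp [bb, smul_add]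
  · simp [bb, smul_add]

theorem smul_bb (k : K) (x y : TB K S) : bb (k • x) y = k • bb x y := by
  refine TB.ext ?_ (fun f => ?_) ?_
  · simp [bb]
  · simp [bb, smul_add]
  · simp [bb, smul_add]

theorem ub_add (u : S × S) (y z : TB K S) : ub u (y + z) = ub u y + ub u z := by
  refine Prod.ext ?_ ?_
  · simp [ub, mul_add]
  · simp [ub, mul_add, add_mul]
    ring

theorem add_ub (u v : S × S) (y : TB K S) : ub (u + v) y = ub u y + ub v y := by
  refine Prod.ext ?_ ?_
  · simp [ub, add_mul]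
  · simp [ub, mul_add, add_mul]
    ring

theorem ub_assoc (u : S × S) (x y : TB K S) : ub (ub u x) y = ub u (bb x y) := by
  refine Prod.ext ?_ ?_
  · simp [ub, bb, mul_assoc]
  · simp [ub, bb]
    ring

theorem ub_smul (k : K) (u : S × S) (y : TB K S) : ub u (k • y) = k • ub u y := by
  refine Prod.ext ?_ ?_
  · simp [ub]
  · simp [ub, smul_add]

theorem smul_ub (k : K) (u : S × S) (y : TB K S) : ub (k • u) y = k • ub u y := by
  refine Prod.ext ?_ ?_
  · simp [ub]
  · simp [ub, smul_add]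

theorem bq_add (x : TB K S) (q r : (S →ₗ[K] M) × (S →ₗ[K] M)) : bq x (q + r) = bq x q + bq x r := by
  refine Prod.ext (LinearMap.ext fun f => ?_) (LinearMap.ext fun f => ?_)
  · simp [bq]
  · simp [bq]
    abel

theorem add_bq (x y : TB K S) (q : (S →ₗ[K] M) × (S →ₗ[K] M)) : bq (x + y) q = bq x q + bq y q := by
  refine Prod.ext (LinearMap.ext fun f => ?_) (LinearMap.ext fun f => ?_)
  · simp [bq, add_mul]
  · simp [bq, op_apply, add_mul]
    abel

theorem bq_assoc (x y : TB K S) (q : (S →ₗ[K] M) × (S →ₗ[K] M)) :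
    bq (bb x y) q = bq x (bq y q) := by
  refine Prod.ext (LinearMap.ext fun f => ?_) (LinearMap.ext fun f => ?_)
  · simp only [bq, bb, LinearMap.comp_apply, LinearMap.mulLeft_apply]
    congr 1
    ring
  · simp only [bq, bb, LinearMap.comp_apply, LinearMap.mulLeft_apply, LinearMap.add_apply, op_apply]
    have h1 : x.1 * y.1 * f = y.1 * (x.1 * f) := by ring
    have h2 : (y.1 • x.2.1 + x.1 • y.2.1) f + (y.1 * x.2.2 + x.1 * y.2.2 + y.2.1 x.1) * f =
        (y.2.1 (x.1 * f) + y.2.2 * (x.1 * f)) + y.1 * (x.2.1 f + x.2.2 * f) := by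
      simp
      ring
    rw [h1, h2, map_add, add_assoc]

theorem bq_smul (k : K) (x : TB K S) (q : (S →ₗ[K] M) × (S →ₗ[K] M)) :
    bq x (k • q) = k • bq x q := by
  refine Prod.ext (LinearMap.ext fun f => ?_) (LinearMap.ext fun f => ?_)
  · simp [bq]
  · simp [bq, smul_add]

theorem smul_bq (k : K) (x : TB K S) (q : (S →ₗ[K] M) × (S →ₗ[K] M)) :
    bq (k • x) q = k • bq x q := by
  refine Prod.ext (LinearMap.ext fun f => ?_) (LinearMap.ext fun f => ?_)
  · simp [bq]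
  · simp [bq, op_apply, smul_add]

theorem uq_add (u : S × S) (q r : (S →ₗ[K] M) × (S →ₗ[K] M)) : uq u (q + r) = uq u q + uq u r := by
  simp [uq]
  abel

theorem add_uq (u v : S × S) (q : (S →ₗ[K] M) × (S →ₗ[K] M)) : uq (u + v) q = uq u q + uq v q := by
  simp [uq]
  abel

theorem uq_assoc (u : S × S) (x : TB K S) (q : (S →ₗ[K] M) × (S →ₗ[K] M)) :
    uq (ub u x) q = uq u (bq x q) := by
  simp only [uq, ub, bq, LinearMap.comp_apply, LinearMap.mulLeft_apply, LinearMap.add_apply, op_apply]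
  have h1 : u.1 * x.1 = x.1 * u.1 := by ring
  have h2 : u.2 * x.1 + x.2.1 u.1 + x.2.2 * u.1 = x.1 * u.2 + (x.2.1 u.1 + x.2.2 * u.1) := by ring
  rw [h1, h2, map_add]
  abel

theorem uq_smul (k : K) (u : S × S) (q : (S →ₗ[K] M) × (S →ₗ[K] M)) :
    uq u (k • q) = k • uq u q := by
  simp [uq, smul_add]

theorem smul_uq (k : K) (u : S × S) (q : (S →ₗ[K] M) × (S →ₗ[K] M)) :
    uq (k • u) q = k • uq u q := by
  simp [uq, smul_add]

theorem zero_bb' (x : TB K S) : bb 0 x = 0 := by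
  have := add_bb (0 : TB K S) 0 x
  simpa using this

theorem zero_ub (x : TB K S) : ub 0 x = 0 := by
  have := add_ub (0 : S × S) 0 x
  simpa using this

theorem zero_bq (q : (S →ₗ[K] M) × (S →ₗ[K] M)) : bq 0 q = 0 := by
  have := add_bq (0 : TB K S) 0 q
  simpa using this

theorem zero_uq (q : (S →ₗ[K] M) × (S →ₗ[K] M)) : uq 0 q = 0 := by
  have := add_uq (0 : S × S) 0 q
  simpa using this

theorem bb_zero' (x : TB K S) : bb x 0 = 0 := by
  have := bb_add x (0 : TB K S) 0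
  simpa using this

theorem ub_zero (u : S × S) : ub u (0 : TB K S) = 0 := by
  have := ub_add u (0 : TB K S) 0
  simpa using this

theorem bq_zero (x : TB K S) : bq x (0 : (S →ₗ[K] M) × (S →ₗ[K] M)) = 0 := by
  have := bq_add x (0 : (S →ₗ[K] M) × (S →ₗ[K] M)) 0
  simpa using this

theorem uq_zero (u : S × S) : uq u (0 : (S →ₗ[K] M) × (S →ₗ[K] M)) = 0 := by
  have := uq_add u (0 : (S →ₗ[K] M) × (S →ₗ[K] M)) 0
  simpa using this

instance : NonUnitalRing (T K S M) :=
  { (inferInstance : AddCommGroup (T K S M)), (inferInstance : Mul (T K S M)) with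
    left_distrib := fun x y z => T.ext (bb_add _ _ _) (ub_add _ _ _) (bq_add _ _ _) (uq_add _ _ _)
    right_distrib := fun x y z => T.ext (add_bb _ _ _) (add_ub _ _ _) (add_bq _ _ _) (add_uq _ _ _)
    zero_mul := fun x => T.ext (zero_bb' _) (zero_ub _) (zero_bq _) (zero_uq _)
    mul_zero := fun x => T.ext (bb_zero' _) (ub_zero _) (bq_zero _) (uq_zero _)
    mul_assoc := fun x y z =>
      T.ext (bb_assoc _ _ _) (ub_assoc _ _ _) (bq_assoc _ _ _) (uq_assoc _ _ _) }

instance : IsScalarTower K (T K S M) (T K S M) :=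
  ⟨fun k x y => T.ext (smul_bb _ _ _) (smul_ub _ _ _) (smul_bq _ _ _) (smul_uq _ _ _)⟩

instance : SMulCommClass K (T K S M) (T K S M) :=
  ⟨fun k x y => (T.ext (bb_smul _ _ _) (ub_smul _ _ _) (bq_smul _ _ _) (uq_smul _ _ _) :
    x * (k • y) = k • (x * y)).symm⟩

/-- commutators in the block `B` -/
theorem comm_bb (x y : TB K S) : bb x y - bb y x = (0, 0, y.2.1 x.1 - x.2.1 y.1) := by
  refine TB.ext ?_ (fun f => ?_) ?_
  · simp [bb]
    ring
  · simp [bb]
    ring
  · simp [bb]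
    ring

theorem bb_nil (w w' : S) : bb ((0, 0, w) : TB K S) (0, 0, w') = 0 := by
  refine TB.ext ?_ (fun f => ?_) ?_ <;> simp [bb]

theorem bb_cent (w : S) (y : TB K S) :
    bb ((0, 0, w) : TB K S) y - bb y ((0, 0, w) : TB K S) = 0 := by
  refine TB.ext ?_ (fun f => ?_) ?_ <;> simp [bb]

end

theorem mid {K S M : Type} [Field K] [CommRing S] [Algebra K S] [AddCommGroup M] [Module K M]
    (x Y v : T K S M) (hY : Y.1 = 0) : x * Y * v = 0 := by
  refine T.ext ?_ ?_ ?_ ?_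
  · rw [mul_1, mul_1, hY, bb_zero', zero_bb', zero_1]
  · rw [mul_2, mul_2, hY, ub_assoc, zero_bb', ub_zero, zero_2]
  · rw [mul_3, mul_1, hY, bb_zero', zero_bq, zero_3]
  · rw [mul_4, mul_2, hY, uq_assoc, zero_bq, zero_4, uq_zero]

/-- elements of the blocks -/
def mB {K S : Type} (M : Type) [Field K] [CommRing S] [Algebra K S] [AddCommGroup M] [Module K M]
    (a : S) (δ : Derivation K S S) (c : S) : T K S M := ((a, δ, c), 0, 0, 0)

/-- elements of the blocks -/
def mU (K M : Type) {S : Type} [Field K] [CommRing S] [Algebra K S] [AddCommGroup M] [Module K M]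
    (f h : S) : T K S M := (0, (f, h), 0, 0)

/-- elements of the blocks -/
def mQ {K S M : Type} [Field K] [CommRing S] [Algebra K S] [AddCommGroup M] [Module K M]
    (φ ψ : S →ₗ[K] M) : T K S M := (0, 0, (φ, ψ), 0)

/-- elements of the blocks -/
def mM (K S : Type) {M : Type} [Field K] [CommRing S] [Algebra K S] [AddCommGroup M] [Module K M]
    (m : M) : T K S M := (0, 0, 0, m)

section
variable {K S M : Type} [Field K] [CommRing S] [Algebra K S] [AddCommGroup M] [Module K M]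

theorem mQ_add (φ ψ φ' ψ' : S →ₗ[K] M) :
    mQ (φ + φ') (ψ + ψ') = mQ φ ψ + mQ φ' ψ' :=
  T.ext (add_zero (0 : TB K S)).symm (add_zero (0 : S × S)).symm rfl (add_zero (0 : M)).symm

theorem mB_add (a : S) (δ : Derivation K S S) (c a' : S) (δ' : Derivation K S S) (c' : S) :
    mB M a δ c + mB M a' δ' c' = mB M (a + a') (δ + δ') (c + c') :=
  T.ext rfl (add_zero (0 : S × S)) (add_zero (0 : (S →ₗ[K] M) × (S →ₗ[K] M))) (add_zero (0 : M))

theorem mB_mul (a : S) (δ : Derivation K S S) (c a' : S) (δ' : Derivation K S S) (c' : S) :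
    mB M a δ c * mB M a' δ' c' =
      mB M (a * a') (a' • δ + a • δ') (a' * c + a * c' + δ' a) :=
  T.ext rfl (zero_ub _) (bq_zero _) (zero_uq _)

theorem mU_mB (f h a : S) (δ : Derivation K S S) (c : S) :
    mU K M f h * mB M a δ c = mU K M (f * a) (h * a + δ f + c * f) :=
  T.ext (zero_bb' _) rfl (zero_bq _) (uq_zero _)

theorem mB_mQ (a : S) (δ : Derivation K S S) (c : S) (φ ψ : S →ₗ[K] M) :
    mB M a δ c * mQ φ ψ = mQ (φ ∘ₗ LinearMap.mulLeft K a)
      (ψ ∘ₗ LinearMap.mulLeft K a + φ ∘ₗ op δ c) :=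
  T.ext (bb_zero' _) (zero_ub _) rfl (zero_uq _)

theorem mU_mQ (f h : S) (φ ψ : S →ₗ[K] M) :
    mU K M f h * mQ φ ψ = mM K S (φ h + ψ f) :=
  T.ext (zero_bb' _) (ub_zero _) (zero_bq _) rfl

end

theorem tri : StmTri := by
  intro K _ S _ _ M _ _
  refine ⟨T K S M, inferInstance, inferInstance, inferInstance, inferInstance,
    fun a δ c => mB M a δ c, fun f h => mU K M f h,
    { toFun := fun φ => mQ φ 0
      map_zero' := rfl
      map_add' := fun φ ψ => by rw [← mQ_add, add_zero] },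
    { toFun := fun φ => mQ 0 φ
      map_zero' := rfl
      map_add' := fun φ ψ => by rw [← mQ_add, add_zero] },
    fun m => mM K S m, ⟨?_, ?_⟩, rfl, ?_, ?_, ?_, rfl, ?_, ?_, ?_, ?_, ?_⟩
  · intro x y z t u v
    rw [mul_assoc x]
    refine mid _ _ _ ?_
    rw [mul_1, sub_1, sub_1, mul_1, mul_1, mul_1, mul_1, comm_bb, comm_bb, bb_nil]
  · intro x y z t u
    refine mid _ _ _ ?_
    rw [sub_1, mul_1, mul_1, sub_1, mul_1, mul_1, comm_bb y.1 z.1, bb_cent]
  · intro m m' h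
    exact congrArg (fun x : T K S M => x.2.2.2) h
  · intro a δ c a' δ' c'
    exact mB_add _ _ _ _ _ _
  · intro a δ c a' δ' c'
    exact mB_mul _ _ _ _ _ _
  · intro f h a δ c
    exact mU_mB _ _ _ _ _
  · intro a c δ φ
    show mB M a δ c * mQ 0 φ = mQ 0 (φ ∘ₗ LinearMap.mulLeft K a)
    rw [mB_mQ]
    simp
  · intro c δ φ
    show mB M 0 δ c * mQ φ 0 = mQ 0 (φ ∘ₗ ((δ : S →ₗ[K] S) + LinearMap.mulLeft K c))
    rw [mB_mQ]
    simp [op]
  · intro f h φ
    show mU K M f h * mQ φ 0 = mM K S (φ h)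
    rw [mU_mQ]
    simp
  · intro f h φ
    show mU K M f h * mQ 0 φ = mM K S (φ f)
    rw [mU_mQ]
    simp

end Run7.h417.WK
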