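import Pool.Agent.Y817.WK.Fin
import Pool.Agent.Y246.WK.Arith
import Pool.Agent.Run7.h417.WK.Derive
import Pool.Agent.Run7.h417.WK.Pde
import Pool.Agent.Run7.h417.WK.Tri

/-!
# Every c.e. set is reducible to the word problem of every variety which contains `W`
-/

set_option autoImplicit false

namespace Run7.h417.WK

open Pool.Agent.Y817.WK

theorem mdl : StmModel := model tri pde

/-- The word problem (the set of codes of the elements which are zero) of the algebra presented by
`R` in the variety defined by `Id`. -/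
def WP {K : Type} [Field K] (ν : ℕ → K) (Id : Set (List (K × ℕ × List ℕ))) {k : ℕ}
    (R : List (List (ℤ × Fin k × List (Fin k)))) (w : List (ℕ × Fin k × List (Fin k))) : Prop :=
  ZeroIn Id (R.map fun r => r.map fun t => ((t.1 : K), t.2)) (w.map fun t => (ν t.1, t.2))

theorem reduction (S : ℕ → Prop) (hS : REPred S) :
    ∃ (k : ℕ) (R : List (List (ℤ × Fin k × List (Fin k)))),
      ∀ (K : Type) [Field K] [CharZero K] (ν : ℕ → K), Function.Surjective ν →
        ∀ Id : Set (List (K × ℕ × List ℕ)), ContainsW K Id → S ≤₀ WP ν Id R := by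
  classical
  obtain ⟨a, b, n, Q, hQ⟩ := Pool.Agent.Y246.WK.t S hS
  have := finite_gen a b
  obtain ⟨k, ⟨e⟩⟩ : ∃ k, Nonempty (Gen (Fin a) (Fin b) ≃ Fin k) := ⟨_, ⟨Finite.equivFin _⟩⟩
  refine ⟨k, (relL n Q).map (ren e), ?_⟩
  intro K _ _ ν hν Id hId
  obtain ⟨n1, hn1⟩ := hν 1
  let F : ℕ → List (ℕ × Fin k × List (Fin k)) := fun c =>
    [(n1, e Gen.p, (List.range c).map (fun _ => e (Gen.x n)) ++ [e Gen.z, e Gen.q0])]
  have hF : Computable F := by
    apply Primrec.to_comp
    have h1 : Primrec (fun c : ℕ => (List.range c).map (fun _ => e (Gen.x n))) :=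
      Primrec.list_map Primrec.list_range ((Primrec.const _).to₂)
    have h2 : Primrec (fun c : ℕ => (List.range c).map (fun _ => e (Gen.x n)) ++
        [e Gen.z, e Gen.q0]) := Primrec.list_append.comp h1 (Primrec.const _)
    have h3 : Primrec (fun c : ℕ => (n1, e Gen.p, (List.range c).map (fun _ => e (Gen.x n)) ++
        [e Gen.z, e Gen.q0])) := Primrec.pair (Primrec.const _) (Primrec.pair (Primrec.const _) h2)
    exact Primrec.list_cons.comp h3 (Primrec.const [])
  have hev : ∀ (c : ℕ) (A : Type) [NonUnitalRing A] [Module K A] (g : Fin k → A),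
      evalPoly g ((F c).map fun t => (ν t.1, t.2)) = W n (fun u => g (e u)) c := by
    intro c A _ _ g
    simp only [F, List.map_cons, List.map_nil, evalPoly, List.sum_cons, List.sum_nil, hn1,
      one_smul, add_zero, evalWord, List.foldl_append, List.foldl_cons, List.foldl_nil, W]
    rw [List.map_const', List.length_range, ← List.map_replicate, List.foldl_map]
  have hrel : ∀ (A : Type) [NonUnitalRing A] [Module K A] (g : Fin k → A),
      (∀ r ∈ ((relL n Q).map (ren e)).map (fun r => r.map fun t => ((t.1 : K), t.2)),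
        evalPoly g r = 0) ↔ Rel n Q (fun u => g (e u)) := by
    intro A _ _ g
    rw [← relL_iff]
    simp only [List.mem_map, forall_exists_index, and_imp, forall_apply_eq_imp_iff₂,
      evalPoly_cast, evalZ_ren]
  refine ⟨F, hF, fun c => ?_⟩
  rw [hQ]
  constructor
  · intro h A _ _ _ _ hV g hg
    rw [hev]
    exact derive _ _ n Q A _ ((hrel A g).1 hg) c h
  · intro h
    by_contra hc
    obtain ⟨A, i1, i2, i3, i4, g, hW, hR, hne⟩ := mdl K (Fin a) (Fin b) n Q c hc
    have h1 := h A (hId A hW) (fun u => g (e.symm u))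
      ((hrel A _).2 (by simpa using hR))
    rw [hev] at h1
    exact hne (by simpa using h1)

theorem main_thm : StmMain := main Pool.Agent.Y246.WK.t derive mdl

end Run7.h417.WK
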